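import Pool.Agent.CSP3.Base

/-!
# A lower bound for non abelian images of the Torelli group `IA_n`

Let `q : Aut(F_n) → Q` be a homomorphism, `n ≥ 4`, with `q (C i ⁅x j, x k⁆) ≠ 1` for all distinct
`i, j, k`. Then the image of `IA_n` has at least `2 ^ (n * (n-1).choose 2)` elements.
-/

set_option autoImplicit false

namespace Pool.Agent.CSP5

open Pool.Agent.CSP3
open scoped commutatorElement

/-- the Torelli group `IA_n`: the automorphisms acting trivially on the abelianization -/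
def torelli (n : ℕ) : Subgroup (MulAut (FreeGroup (Fin n))) where
  carrier := {ψ | ∀ w : FreeGroup (Fin n), Abelianization.of (ψ w) = Abelianization.of w}
  one_mem' := fun _ => rfl
  mul_mem' := by
    intro a b ha hb w
    show Abelianization.of (a (b w)) = Abelianization.of w
    rw [ha, hb]
  inv_mem' := by
    intro a ha w
    have := ha (a⁻¹ w)
    rw [MulAut.apply_inv_self] at this
    exact this.symm

variable {n : ℕ} {Q : Type*} [Group Q]

theorem mem_torelli_of {φ : A n} (h : ∀ j, Abelianization.of (φ (x j)) = Abelianization.of (x j)) :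
    φ ∈ torelli n := by
  intro w
  have : Abelianization.of.comp φ.toMonoidHom = (Abelianization.of : F n →* _) :=
    FreeGroup.ext_hom _ _ h
  exact DFunLike.congr_fun this w

theorem of_comm {T : Subgroup (F n)} {w : F n} (h : w ∈ ⁅T, T⁆) :
    (Abelianization.of w : Abelianization (F n)) = 1 := by
  have h1 : w ∈ commutator (F n) := by
    rw [commutator_def]
    exact Subgroup.commutator_mono le_top le_top h
  exact (QuotientGroup.eq_one_iff w).mpr h1

theorem of_kill_comm (i : Fin n) {T : Subgroup (F n)} {w : F n} (h : w ∈ ⁅T, T⁆) :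
    (Abelianization.of (kill i w) : Abelianization (F n)) = 1 := by
  have h1 : kill i w ∈ ⁅T.map (kill i), T.map (kill i)⁆ := by
    rw [← Subgroup.map_commutator]
    exact Subgroup.mem_map_of_mem _ h
  exact of_comm h1

theorem C_mem_torelli (i : Fin n) (w : F n) : C i w ∈ torelli n := by
  refine mem_torelli_of fun j => ?_
  by_cases hj : j = i
  · subst hj
    rw [C_apply_self, map_mul, map_mul, map_inv, mul_right_comm, inv_mul_cancel, one_mul]
  · rw [C_apply_ne hj]

theorem R_mem_torelli (i : Fin n) {T : Subgroup (F n)} {w : F n} (h : w ∈ ⁅T, T⁆) :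
    R i w ∈ torelli n := by
  refine mem_torelli_of fun j => ?_
  by_cases hj : j = i
  · subst hj
    rw [R_apply_self, map_mul, of_kill_comm _ h, mul_one]
  · rw [R_apply_ne hj]

theorem L_mem_torelli (i : Fin n) {T : Subgroup (F n)} {w : F n} (h : w ∈ ⁅T, T⁆) :
    L i w ∈ torelli n := by
  rw [L_eq]
  exact (torelli n).mul_mem (C_mem_torelli i w) ((torelli n).inv_mem (R_mem_torelli i h))

/-! ### abstract group theory -/

theorem grpR {g a b z z' : Q} (h : g * z' * g⁻¹ = z') (h0 : g * z * g⁻¹ = z)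
    (ha : g * a * g⁻¹ = a * b) (e : z' = a * z * a⁻¹) : Commute b z := by
  have h1 : z' = (a * b) * z * (a * b)⁻¹ := by
    calc z' = g * z' * g⁻¹ := h.symm
      _ = (g * a * g⁻¹) * (g * z * g⁻¹) * (g * a * g⁻¹)⁻¹ := by rw [e]; group
      _ = _ := by rw [ha, h0]
  have h2 : a * (b * z * b⁻¹) * a⁻¹ = a * z * a⁻¹ := by
    rw [← e, h1]; group
  have h3 : b * z * b⁻¹ = z := mul_left_cancel (mul_right_cancel h2)
  exact mul_inv_eq_iff_eq_mul.mp h3

theorem grpL {g a b z z' : Q} (h : g * z' * g⁻¹ = z') (h0 : g * z * g⁻¹ = z)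
    (ha : g * a * g⁻¹ = b * a) (e : z' = a⁻¹ * z * a) : Commute b z := by
  have h1 : z' = (b * a)⁻¹ * z * (b * a) := by
    calc z' = g * z' * g⁻¹ := h.symm
      _ = (g * a * g⁻¹)⁻¹ * (g * z * g⁻¹) * (g * a * g⁻¹) := by rw [e]; group
      _ = _ := by rw [ha, h0]
  have h2 : a⁻¹ * (b⁻¹ * z * b) * a = a⁻¹ * z * a := by
    rw [← e, h1]; group
  have h3 : b⁻¹ * z * b = z := mul_left_cancel (mul_right_cancel h2)
  have h4 : z * b = b * z := by
    rw [mul_assoc, inv_mul_eq_iff_eq_mul] at h3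
    exact h3
  exact h4.symm

/-- `H` contains `k` elements that are pairwise different modulo `C` -/
def Fam (H C : Subgroup Q) (k : ℕ) : Prop :=
  ∃ (ι : Type) (_ : Fintype ι) (f : ι → Q), Fintype.card ι = k ∧ (∀ i, f i ∈ H) ∧
    ∀ i j, (f i)⁻¹ * f j ∈ C → i = j

/-! ### the groups `E_T` -/

variable (q : A n →* Q) (s : Fin n)

/-- `u ↦ q (x_s ↦ x_s u)` -/
def E : F n →* Q := q.comp (R s)

theorem E_def (u : F n) : E q s u = q (R s u) := rfl

/-- the words in the letters of `T` -/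
def FT (T : Finset (Fin n)) : Subgroup (F n) := Subgroup.closure ((fun j => x j) '' (T : Set (Fin n)))

theorem x_mem_FT {T : Finset (Fin n)} {j : Fin n} (h : j ∈ T) : x j ∈ FT T :=
  Subgroup.subset_closure ⟨j, h, rfl⟩

theorem FT_mono {S T : Finset (Fin n)} (h : S ⊆ T) : FT S ≤ FT T :=
  Subgroup.closure_mono (Set.image_mono (by exact_mod_cast h))

theorem FT_le_O {T : Finset (Fin n)} {i : Fin n} (h : i ∉ T) : FT T ≤ O i := by
  refine (Subgroup.closure_le _).mpr ?_
  rintro _ ⟨j, hj, rfl⟩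
  exact x_mem_O fun e => h (e ▸ hj)

theorem fix_FT {T : Finset (Fin n)} {φ : A n} (h : ∀ j ∈ T, φ (x j) = x j) {u : F n}
    (hu : u ∈ FT T) : φ u = u := by
  have h1 : FT T ≤ MonoidHom.eqLocus φ.toMonoidHom (MonoidHom.id _) := by
    refine (Subgroup.closure_le _).mpr ?_
    rintro _ ⟨j, hj, rfl⟩
    exact h j hj
  exact h1 hu

theorem map_FT {T : Finset (Fin n)} {φ : A n} (h : ∀ j ∈ T, φ (x j) ∈ FT T) {u : F n}
    (hu : u ∈ FT T) : φ u ∈ FT T := by
  have h1 : FT T ≤ (FT T).comap φ.toMonoidHom := by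
    refine (Subgroup.closure_le _).mpr ?_
    rintro _ ⟨j, hj, rfl⟩
    exact h j hj
  exact h1 hu

/-- the image of the words in the letters of `T` -/
def ET (T : Finset (Fin n)) : Subgroup Q := (FT T).map (E q s)

theorem ET_mono {S T : Finset (Fin n)} (h : S ⊆ T) : ET q s S ≤ ET q s T :=
  Subgroup.map_mono (FT_mono h)

theorem e_mem_ET {T : Finset (Fin n)} {j : Fin n} (h : j ∈ T) : E q s (x j) ∈ ET q s T :=
  Subgroup.mem_map_of_mem _ (x_mem_FT h)

theorem conj_E {φ : A n} (h1 : φ (x s) = x s) (h2 : ∀ j ≠ s, φ (x j) ∈ O s) (u : F n) :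
    q φ * E q s u * (q φ)⁻¹ = E q s (φ u) := by
  have := conj_tv_of h1 h2 1 u
  rw [map_one] at this
  show q φ * q (R s u) * (q φ)⁻¹ = q (R s (φ u))
  rw [← map_mul, ← map_inv, ← map_mul, R_def, this, R_def]

theorem R_s {a k : Fin n} (has : a ≠ s) (hka : k ≠ a) (hks : k ≠ s) :
    R a (x k) (x s) = x s ∧ ∀ j ≠ s, R a (x k) (x j) ∈ O s := by
  refine ⟨R_apply_ne has.symm _, fun j hj => ?_⟩
  by_cases hja : j = a
  · subst hja
    rw [R_apply_self, kill_ne hka]
    exact (O s).mul_mem (x_mem_O hj) (x_mem_O hks)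
  · rw [R_apply_ne hja]; exact x_mem_O hj

/-- `x_a ↦ x_k x_a` -/
theorem la_self {a k : Fin n} (hka : k ≠ a) : tv a (x k)⁻¹ 1 (x a) = x k * x a := by
  rw [tv_self, map_inv, inv_inv, map_one, mul_one, kill_ne hka]

theorem la_inv_self {a k : Fin n} (hka : k ≠ a) : tv a (x k) 1 (x a) = (x k)⁻¹ * x a := by
  rw [tv_self, map_one, mul_one, kill_ne hka]

theorem la_s {a k : Fin n} (has : a ≠ s) (hka : k ≠ a) (hks : k ≠ s) :
    tv a (x k)⁻¹ 1 (x s) = x s ∧ ∀ j ≠ s, tv a (x k)⁻¹ 1 (x j) ∈ O s := by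
  refine ⟨tv_ne has.symm _ _, fun j hj => ?_⟩
  by_cases hja : j = a
  · subst hja
    rw [la_self hka]
    exact (O s).mul_mem (x_mem_O hks) (x_mem_O hj)
  · rw [tv_ne hja]; exact x_mem_O hj

theorem la_inv_s {a k : Fin n} (has : a ≠ s) (hka : k ≠ a) (hks : k ≠ s) :
    tv a (x k) 1 (x s) = x s ∧ ∀ j ≠ s, tv a (x k) 1 (x j) ∈ O s := by
  refine ⟨tv_ne has.symm _ _, fun j hj => ?_⟩
  by_cases hja : j = a
  · subst hja
    rw [la_inv_self hka]
    exact (O s).mul_mem ((O s).inv_mem (x_mem_O hks)) (x_mem_O hj)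
  · rw [tv_ne hja]; exact x_mem_O hj

theorem D_right {T : Finset (Fin n)} {a k : Fin n} (haT : a ∉ T) (has : a ≠ s) (hka : k ≠ a)
    (hks : k ≠ s) {z : Q} (hz : z ∈ ET q s T)
    (hz' : E q s (x a) * z * (E q s (x a))⁻¹ ∈ ET q s T) : Commute (E q s (x k)) z := by
  obtain ⟨u, hu, rfl⟩ := hz
  obtain ⟨u', hu', e⟩ := hz'
  obtain ⟨h1, h2⟩ := R_s s has hka hks
  have hf : ∀ w ∈ FT T, R a (x k) w = w := fun w hw =>
    fix_FT (fun j hj => R_apply_ne (fun h : j = a => haT (h ▸ hj)) _) hw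
  refine grpR (g := q (R a (x k))) (z' := E q s u') ?_ ?_ ?_ e
  · rw [conj_E q s h1 h2, hf u' hu']
  · rw [conj_E q s h1 h2, hf u hu]
  · rw [conj_E q s h1 h2, R_apply_self, kill_ne hka, map_mul]

theorem D_left {T : Finset (Fin n)} {a k : Fin n} (haT : a ∉ T) (has : a ≠ s) (hka : k ≠ a)
    (hks : k ≠ s) {z : Q} (hz : z ∈ ET q s T)
    (hz' : (E q s (x a))⁻¹ * z * E q s (x a) ∈ ET q s T) : Commute (E q s (x k)) z := by
  obtain ⟨u, hu, rfl⟩ := hz
  obtain ⟨u', hu', e⟩ := hz'
  obtain ⟨h1, h2⟩ := la_s s has hka hks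
  have hf : ∀ w ∈ FT T, tv a (x k)⁻¹ 1 w = w := fun w hw =>
    fix_FT (fun j hj => tv_ne (fun h : j = a => haT (h ▸ hj)) _ _) hw
  refine grpL (g := q (tv a (x k)⁻¹ 1)) (z' := E q s u') ?_ ?_ ?_ e
  · rw [conj_E q s h1 h2, hf u' hu']
  · rw [conj_E q s h1 h2, hf u hu]
  · rw [conj_E q s h1 h2, la_self hka, map_mul]

theorem mem_cent {T : Finset (Fin n)} {z : Q} (h : ∀ k ∈ T, Commute (E q s (x k)) z) :
    z ∈ Subgroup.centralizer (ET q s T : Set Q) := by
  have h1 : ET q s T ≤ Subgroup.centralizer {z} := by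
    rw [ET, Subgroup.map_le_iff_le_comap]
    refine (Subgroup.closure_le _).mpr ?_
    rintro _ ⟨j, hj, rfl⟩
    show E q s (x j) ∈ Subgroup.centralizer {z}
    rw [Subgroup.mem_centralizer_singleton_iff]
    exact (h j hj).eq
  rw [Subgroup.mem_centralizer_iff]
  intro y hy
  have := h1 hy
  rw [Subgroup.mem_centralizer_singleton_iff] at this
  exact this

theorem cent_comm {T : Finset (Fin n)} {c w : Q}
    (hc : c ∈ Subgroup.centralizer (ET q s T : Set Q)) (hw : w ∈ ET q s T) : w * c = c * w :=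
  Subgroup.mem_centralizer_iff.mp hc w hw

theorem famH {Ta : Finset (Fin n)} (hs : s ∉ Ta) (h2 : 2 ≤ Ta.card)
    (hnc : ∀ j ∈ Ta, ∀ k ∈ Ta, j ≠ k → ¬ Commute (E q s (x j)) (E q s (x k)))
    (S : Finset (Fin n)) (hS : S ⊆ Ta) :
    Fam (ET q s S) (Subgroup.centralizer (ET q s Ta : Set Q)) (2 ^ S.card) := by
  induction S using Finset.induction_on with
  | empty =>
    exact ⟨Unit, inferInstance, fun _ => 1, by simp, fun _ => Subgroup.one_mem _,
      fun _ _ _ => rfl⟩
  | insert b S hb ih =>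
    obtain ⟨ι, _, f, hc, hf, hsep⟩ := ih ((Finset.subset_insert b S).trans hS)
    have hbT : b ∈ Ta := hS (Finset.mem_insert_self b S)
    have hbs : b ≠ s := fun h => hs (h ▸ hbT)
    have key : ∀ w ∈ ET q s S, ∀ c ∈ Subgroup.centralizer (ET q s Ta : Set Q),
        E q s (x b) ≠ w * c := by
      intro w hw c hcc e
      obtain ⟨k, hk, hkb⟩ : ∃ k ∈ Ta, k ≠ b := Finset.exists_mem_ne (by omega) b
      have hks : k ≠ s := fun h => hs (h ▸ hk)
      obtain ⟨h1, h1'⟩ := la_s s hbs hkb hks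
      obtain ⟨h3, h3'⟩ := la_inv_s s hbs hkb hks
      have hw' : w ∈ ET q s Ta := ET_mono q s ((Finset.subset_insert b S).trans hS) hw
      set g : Q := q (tv b (x k)⁻¹ 1) with hg
      have hginv : g⁻¹ = q (tv b (x k) 1) := by
        rw [hg, ← map_inv, tv_inv, inv_inv, inv_one]
      have e1 : g * w * g⁻¹ = w := by
        obtain ⟨u, hu, rfl⟩ := hw
        rw [hg, conj_E q s h1 h1']
        congr 1
        exact fix_FT (fun j hj => tv_ne (fun h : j = b => hb (h ▸ hj)) _ _) hu
      have e2 : g * E q s (x b) * g⁻¹ = E q s (x k) * E q s (x b) := by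
        rw [hg, conj_E q s h1 h1', la_self hkb, map_mul]
      have e3 : g * c * g⁻¹ ∈ Subgroup.centralizer (ET q s Ta : Set Q) := by
        rw [Subgroup.mem_centralizer_iff]
        intro y hy
        have hy' : g⁻¹ * y * g ∈ ET q s Ta := by
          obtain ⟨u, hu, rfl⟩ := hy
          have : g⁻¹ * E q s u * g = E q s (tv b (x k) 1 u) := by
            rw [← conj_E q s h3 h3', ← hginv, inv_inv]
          rw [this]
          refine Subgroup.mem_map_of_mem _ (map_FT (fun j hj => ?_) hu)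
          by_cases hjb : j = b
          · subst hjb
            rw [la_inv_self hkb]
            exact (FT Ta).mul_mem ((FT Ta).inv_mem (x_mem_FT hk)) (x_mem_FT hj)
          · rw [tv_ne hjb]; exact x_mem_FT hj
        have := cent_comm q s hcc hy'
        calc y * (g * c * g⁻¹) = g * ((g⁻¹ * y * g) * c) * g⁻¹ := by group
          _ = g * (c * (g⁻¹ * y * g)) * g⁻¹ := by rw [this]
          _ = g * c * g⁻¹ * y := by group
      have e4 : E q s (x k) = (g * c * g⁻¹) * c⁻¹ := by
        have h5 : E q s (x k) * E q s (x b) = w * (g * c * g⁻¹) := by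
          rw [← e2]
          conv_lhs => rw [e]
          calc g * (w * c) * g⁻¹ = (g * w * g⁻¹) * (g * c * g⁻¹) := by group
            _ = _ := by rw [e1]
        have h6 : E q s (x k) = w * ((g * c * g⁻¹) * c⁻¹) * w⁻¹ := by
          calc E q s (x k) = (E q s (x k) * E q s (x b)) * (E q s (x b))⁻¹ := by group
            _ = (w * (g * c * g⁻¹)) * (w * c)⁻¹ := by rw [h5, e]
            _ = _ := by group
        have h7 := cent_comm q s ((Subgroup.centralizer (ET q s Ta : Set Q)).mul_mem e3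
          ((Subgroup.centralizer (ET q s Ta : Set Q)).inv_mem hcc)) hw'
        rw [h6, h7]
        group
      have e5 : E q s (x k) ∈ Subgroup.centralizer (ET q s Ta : Set Q) := by
        rw [e4]
        exact (Subgroup.centralizer (ET q s Ta : Set Q)).mul_mem e3
          ((Subgroup.centralizer (ET q s Ta : Set Q)).inv_mem hcc)
      exact hnc b hbT k hk hkb.symm (cent_comm q s e5 (e_mem_ET q s hbT))
    refine ⟨ι ⊕ ι, inferInstance, Sum.elim f (fun i => E q s (x b) * f i), ?_, ?_, ?_⟩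
    · rw [Fintype.card_sum, hc, Finset.card_insert_of_notMem hb, pow_succ]; ring
    · rintro (i | i)
      · exact ET_mono q s (Finset.subset_insert b S) (hf i)
      · exact Subgroup.mul_mem _ (e_mem_ET q s (Finset.mem_insert_self b S))
          (ET_mono q s (Finset.subset_insert b S) (hf i))
    · have hfT : ∀ i, f i ∈ ET q s Ta := fun i =>
        ET_mono q s ((Finset.subset_insert b S).trans hS) (hf i)
      rintro (i | i) (j | j) h
      · exact congrArg Sum.inl (hsep i j h)
      · exfalso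
        simp only [Sum.elim_inl, Sum.elim_inr] at h
        -- `f i⁻¹ * (e_b * f j) = c`, so `e_b = f i * c * f j⁻¹ = f i * f j⁻¹ * c`
        refine key (f i * (f j)⁻¹) (Subgroup.mul_mem _ (hf i) (Subgroup.inv_mem _ (hf j))) _ h ?_
        have h8 := cent_comm q s h (Subgroup.inv_mem _ (hfT j))
        calc E q s (x b) = f i * (((f i)⁻¹ * (E q s (x b) * f j)) * (f j)⁻¹) := by group
          _ = f i * ((f j)⁻¹ * ((f i)⁻¹ * (E q s (x b) * f j))) := by rw [h8]
          _ = _ := by group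
      · exfalso
        simp only [Sum.elim_inl, Sum.elim_inr] at h
        -- `(e_b * f i)⁻¹ * f j ∈ C`
        have h' : (f j)⁻¹ * (E q s (x b) * f i) ∈
            Subgroup.centralizer (ET q s Ta : Set Q) := by
          have := Subgroup.inv_mem _ h
          rwa [mul_inv_rev, inv_inv] at this
        refine key (f j * (f i)⁻¹) (Subgroup.mul_mem _ (hf j) (Subgroup.inv_mem _ (hf i))) _ h' ?_
        have h8 := cent_comm q s h' (Subgroup.inv_mem _ (hfT i))
        calc E q s (x b) = f j * (((f j)⁻¹ * (E q s (x b) * f i)) * (f i)⁻¹) := by group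
          _ = f j * ((f i)⁻¹ * ((f j)⁻¹ * (E q s (x b) * f i))) := by rw [h8]
          _ = _ := by group
      · simp only [Sum.elim_inr] at h
        refine congrArg Sum.inr (hsep i j ?_)
        have : (E q s (x b) * f i)⁻¹ * (E q s (x b) * f j) = (f i)⁻¹ * f j := by group
        rwa [this] at h

/-- all letters except `s` and `a` -/
def Tc (a : Fin n) : Finset (Fin n) := (Finset.univ.erase s).erase a

theorem mem_Tc {a j : Fin n} : j ∈ Tc s a ↔ j ≠ a ∧ j ≠ s := by simp [Tc]

theorem card_Tc {a : Fin n} (h : a ≠ s) : (Tc s a).card = n - 2 := by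
  rw [Tc, Finset.card_erase_of_mem (by simp [h]), Finset.card_erase_of_mem (by simp)]
  simp; omega

/-- the commutator subgroups `[E_T, E_T]` are large -/
theorem famA (hn : 4 ≤ n)
    (hnc : ∀ j k : Fin n, j ≠ s → k ≠ s → j ≠ k → ¬ Commute (E q s (x j)) (E q s (x k)))
    (T : Finset (Fin n)) (hT : s ∉ T) :
    Fam ⁅ET q s T, ET q s T⁆ ⊥ (2 ^ T.card.choose 2) := by
  induction T using Finset.induction_on with
  | empty =>
    exact ⟨Unit, inferInstance, fun _ => 1, by simp, fun _ => Subgroup.one_mem _,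
      fun _ _ _ => rfl⟩
  | insert a T ha ih =>
    have has : a ≠ s := fun h => hT (h ▸ Finset.mem_insert_self a T)
    have hsT : s ∉ T := fun h => hT (Finset.mem_insert_of_mem h)
    have hTs : T ⊆ Tc s a := fun j hj => (mem_Tc s).mpr
      ⟨fun h => ha (h ▸ hj), fun h => hsT (h ▸ hj)⟩
    obtain ⟨κ, _, g, hgc, hg, hgs⟩ := ih hsT
    obtain ⟨ι, _, f, hfc, hf, hfs⟩ := famH q s (Ta := Tc s a) (by simp [Tc])
      (by rw [card_Tc s has]; omega)
      (fun j hj k hk => hnc j k ((mem_Tc s).mp hj).2 ((mem_Tc s).mp hk).2) T hTs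
    have hm := ET_mono q s (Finset.subset_insert a T)
    refine ⟨κ × ι, inferInstance, fun p => g p.1 * ⁅f p.2, E q s (x a)⁆, ?_, ?_, ?_⟩
    · rw [Fintype.card_prod, hgc, hfc, Finset.card_insert_of_notMem ha, ← pow_add,
        Nat.choose_succ_succ' T.card 1, Nat.choose_one_right, add_comm]
    · intro p
      exact Subgroup.mul_mem _ (Subgroup.commutator_mono hm hm (hg p.1))
        (Subgroup.commutator_mem_commutator (hm (hf p.2))
          (e_mem_ET q s (Finset.mem_insert_self a T)))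
    · rintro ⟨k, i⟩ ⟨k', i'⟩ h
      simp only [Subgroup.mem_bot] at h
      have h1 : g k * ⁅f i, E q s (x a)⁆ = g k' * ⁅f i', E q s (x a)⁆ := by
        have := congrArg (fun y => g k * ⁅f i, E q s (x a)⁆ * y) h
        simp only [mul_one] at this
        rw [← this]; group
      have hA : ∀ k, g k ∈ ET q s T := fun k => by
        exact Subgroup.commutator_le.mpr (fun a ha b hb =>
          Subgroup.mul_mem _ (Subgroup.mul_mem _ (Subgroup.mul_mem _ ha hb) (Subgroup.inv_mem _ ha))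
            (Subgroup.inv_mem _ hb)) (hg k)
      have h2 : E q s (x a) * ((f i)⁻¹ * f i') * (E q s (x a))⁻¹ ∈ ET q s T := by
        have e : E q s (x a) * ((f i)⁻¹ * f i') * (E q s (x a))⁻¹ =
            (f i)⁻¹ * ((g k)⁻¹ * g k') * f i' := by
          have h3 : ⁅f i, E q s (x a)⁆ * ⁅f i', E q s (x a)⁆⁻¹ = (g k)⁻¹ * g k' := by
            have : ⁅f i, E q s (x a)⁆ = (g k)⁻¹ * (g k' * ⁅f i', E q s (x a)⁆) := by
              rw [← h1]; group
            rw [this]; group
          rw [← h3]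
          simp only [commutatorElement_def]
          group
        rw [e]
        exact Subgroup.mul_mem _ (Subgroup.mul_mem _ (Subgroup.inv_mem _ (hf i))
          (Subgroup.mul_mem _ (Subgroup.inv_mem _ (hA k)) (hA k'))) (hf i')
      have h4 : i = i' := hfs i i' (mem_cent q s fun k hk =>
        D_right q s ha has ((mem_Tc s).mp hk).1 ((mem_Tc s).mp hk).2
          (Subgroup.mul_mem _ (Subgroup.inv_mem _ (hf i)) (hf i')) h2)
      subst h4
      have h5 : g k = g k' := mul_right_cancel h1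
      have h6 : k = k' := hgs k k' (by rw [h5, inv_mul_cancel]; exact Subgroup.one_mem _)
      rw [h6]

/-- the orbit of `e_i` under the elements of `IA_n` moving only the letter `x_i` -/
theorem orbit (hn : 4 ≤ n)
    (hnc : ∀ j k : Fin n, j ≠ s → k ≠ s → j ≠ k → ¬ Commute (E q s (x j)) (E q s (x k)))
    {i : Fin n} (his : i ≠ s) :
    ∃ (ι : Type) (_ : Fintype ι) (ψ : ι → A n), Fintype.card ι = 2 ^ (n - 1).choose 2 ∧
      (∀ a, ψ a ∈ torelli n) ∧
      (∀ a, ∀ j, j ≠ i → j ≠ s → Commute (q (ψ a)) (E q s (x j))) ∧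
      ∀ a b, q (ψ a) * E q s (x i) * (q (ψ a))⁻¹ = q (ψ b) * E q s (x i) * (q (ψ b))⁻¹ → a = b := by
  have hs : s ∉ Tc s i := by simp [Tc]
  have hi : i ∉ Tc s i := by simp [Tc]
  obtain ⟨ι, _, f, hfc, hf, hfs⟩ := famH q s (Ta := Tc s i) hs
      (by rw [card_Tc s his]; omega)
      (fun j hj k hk => hnc j k ((mem_Tc s).mp hj).2 ((mem_Tc s).mp hk).2) (Tc s i) subset_rfl
  obtain ⟨κ, _, g, hgc, hg, hgs⟩ := famA q s hn hnc (Tc s i) hs
  -- lifts
  choose ν hν hνf using hf
  have hg' : ∀ k, ∃ ω ∈ ⁅FT (Tc s i), FT (Tc s i)⁆, E q s ω = g k := fun k => by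
    have := hg k
    rw [ET, ← Subgroup.map_commutator] at this
    exact this
  choose ω hω hωg using hg'
  have hωF : ∀ k, ω k ∈ FT (Tc s i) := fun k =>
    Subgroup.commutator_le.mpr (fun a ha b hb =>
          Subgroup.mul_mem _ (Subgroup.mul_mem _ (Subgroup.mul_mem _ ha hb) (Subgroup.inv_mem _ ha))
            (Subgroup.inv_mem _ hb)) (hω k)
  have hOi := FT_le_O (T := Tc s i) hi
  have hOs := FT_le_O (T := Tc s i) hs
  let ψ : ι × κ → A n := fun p => C i (ν p.1)⁻¹ * R i (ω p.2)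
  have ψi : ∀ p, ψ p (x i) = ν p.1 * x i * (ν p.1)⁻¹ * ω p.2 := by
    intro p
    show C i (ν p.1)⁻¹ (R i (ω p.2) (x i)) = _
    rw [R_apply_self, kill_of_mem (hOi (hωF p.2)), map_mul, C_apply_self, map_inv, inv_inv,
      kill_of_mem (hOi (hν p.1)), C_apply_of_mem (hOi (hωF p.2))]
  have ψne : ∀ p, ∀ j ≠ i, ψ p (x j) = x j := by
    intro p j hj
    show C i (ν p.1)⁻¹ (R i (ω p.2) (x j)) = _
    rw [R_apply_ne hj, C_apply_ne hj]
  have ψs : ∀ p, ψ p (x s) = x s := fun p => ψne p s his.symm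
  have ψO : ∀ p, ∀ j ≠ s, ψ p (x j) ∈ O s := by
    intro p j hj
    by_cases hji : j = i
    · subst hji
      rw [ψi]
      exact (O s).mul_mem ((O s).mul_mem ((O s).mul_mem (hOs (hν p.1)) (x_mem_O hj))
        ((O s).inv_mem (hOs (hν p.1)))) (hOs (hωF p.2))
    · rw [ψne p j hji]; exact x_mem_O hj
  refine ⟨ι × κ, inferInstance, ψ, ?_, ?_, ?_, ?_⟩
  · rw [Fintype.card_prod, hfc, hgc, card_Tc s his, ← pow_add]
    congr 1
    obtain ⟨m, rfl⟩ : ∃ m, n = m + 2 := ⟨n - 2, by omega⟩
    show m + m.choose 2 = (m + 1).choose 2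
    rw [Nat.choose_succ_succ' m 1, Nat.choose_one_right]
  · intro p
    exact (torelli n).mul_mem (C_mem_torelli _ _) (R_mem_torelli _ (hω p.2))
  · intro p j hji hjs
    have := conj_E q s (ψs p) (ψO p) (x j)
    rw [ψne p j hji] at this
    exact mul_inv_eq_iff_eq_mul.mp this
  · rintro ⟨a, c⟩ ⟨b, d⟩ h
    rw [conj_E q s (ψs _) (ψO _), conj_E q s (ψs _) (ψO _), ψi, ψi] at h
    simp only [map_mul, map_inv, hνf, hωg] at h
    -- `v e v⁻¹ w = v' e v'⁻¹ w'`
    have hA : ∀ k, g k ∈ ET q s (Tc s i) := fun k => by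
      rw [← hωg k]; exact Subgroup.mem_map_of_mem _ (hωF k)
    have hfE : ∀ a, f a ∈ ET q s (Tc s i) := fun a => by
      rw [← hνf a]; exact Subgroup.mem_map_of_mem _ (hν a)
    have h2 : (E q s (x i))⁻¹ * ((f b)⁻¹ * f a) * E q s (x i) ∈ ET q s (Tc s i) := by
      have e : (E q s (x i))⁻¹ * ((f b)⁻¹ * f a) * E q s (x i) =
          (f b)⁻¹ * (g d * (g c)⁻¹) * f a := by
        have h3 : f a * E q s (x i) * (f a)⁻¹ * g c = f b * E q s (x i) * (f b)⁻¹ * g d := h
        have h4 : (f b)⁻¹ * f a * E q s (x i) =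
            E q s (x i) * ((f b)⁻¹ * (g d * (g c)⁻¹) * f a) := by
          calc (f b)⁻¹ * f a * E q s (x i)
              = (f b)⁻¹ * (f a * E q s (x i) * (f a)⁻¹ * g c) * (g c)⁻¹ * f a := by group
            _ = (f b)⁻¹ * (f b * E q s (x i) * (f b)⁻¹ * g d) * (g c)⁻¹ * f a := by rw [h3]
            _ = _ := by group
        rw [mul_assoc, h4]; group
      rw [e]
      exact Subgroup.mul_mem _ (Subgroup.mul_mem _ (Subgroup.inv_mem _ (hfE b))
          (Subgroup.mul_mem _ (hA d) (Subgroup.inv_mem _ (hA c)))) (hfE a)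
    have h4 : b = a := hfs b a (mem_cent q s fun k hk =>
        D_left q s hi his ((mem_Tc s).mp hk).1 ((mem_Tc s).mp hk).2
          (Subgroup.mul_mem _ (Subgroup.inv_mem _ (hfE b)) (hfE a)) h2)
    subst h4
    have h5 : g c = g d := mul_left_cancel h
    have h6 : c = d := hgs c d (by rw [h5, inv_mul_cancel]; exact Subgroup.one_mem _)
    rw [h6]

/-- many elements in the image of `IA_n` -/
theorem chain (hn : 4 ≤ n)
    (hnc : ∀ j k : Fin n, j ≠ s → k ≠ s → j ≠ k → ¬ Commute (E q s (x j)) (E q s (x k)))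
    (U : Finset (Fin n)) (hU : s ∉ U) :
    ∃ (ι : Type) (_ : Fintype ι) (f : ι → A n),
      Fintype.card ι = 2 ^ ((U.card + 1) * (n - 1).choose 2) ∧
      (∀ a, f a ∈ torelli n) ∧
      (∀ a, ∀ j, j ∉ U → j ≠ s → Commute (q (f a)) (E q s (x j))) ∧
      ∀ a b, q (f a) = q (f b) → a = b := by
  induction U using Finset.induction_on with
  | empty =>
    obtain ⟨κ, _, g, hgc, hg, hgs⟩ := famA q s hn hnc (Finset.univ.erase s) (by simp)
    have hg' : ∀ k, ∃ ω ∈ ⁅FT (Finset.univ.erase s), FT (Finset.univ.erase s)⁆, E q s ω = g k :=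
      fun k => by
        have := hg k
        rw [ET, ← Subgroup.map_commutator] at this
        exact this
    choose ω hω hωg using hg'
    refine ⟨κ, inferInstance, fun k => L s (ω k), ?_, ?_, ?_, ?_⟩
    · rw [hgc, Finset.card_erase_of_mem (Finset.mem_univ s), Finset.card_univ, Fintype.card_fin,
        Finset.card_empty, zero_add, one_mul]
    · intro k
      exact L_mem_torelli _ (hω k)
    · intro k j _ _
      show q (L s (ω k)) * q (R s (x j)) = q (R s (x j)) * q (L s (ω k))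
      rw [← map_mul, LR_comm, map_mul]
    · intro a b h
      have h1 : ∀ k, q (L s (ω k)) = q (sg s) * E q s (ω k) * (q (sg s))⁻¹ := fun k => by
        rw [← sg_conj_R_same, map_mul, map_mul, map_inv]; rfl
      simp only [h1, hωg] at h
      have h5 : g a = g b := mul_left_cancel (mul_right_cancel h)
      exact hgs a b (by rw [h5, inv_mul_cancel]; exact Subgroup.one_mem _)
  | insert i U hi ih =>
    have his : i ≠ s := fun h => hU (h ▸ Finset.mem_insert_self i U)
    obtain ⟨ι, _, f, hfc, hft, hfcomm, hfinj⟩ := ih fun h => hU (Finset.mem_insert_of_mem h)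
    obtain ⟨κ, _, ψ, hψc, hψt, hψcomm, hψinj⟩ := orbit q s hn hnc his
    refine ⟨κ × ι, inferInstance, fun p => ψ p.1 * f p.2, ?_, ?_, ?_, ?_⟩
    · rw [Fintype.card_prod, hfc, hψc, Finset.card_insert_of_notMem hi, ← pow_add]
      congr 1; ring
    · intro p
      exact (torelli n).mul_mem (hψt _) (hft _)
    · intro p j hj hjs
      rw [Finset.mem_insert, not_or] at hj
      rw [map_mul]
      exact (hψcomm p.1 j hj.1 hjs).mul_left (hfcomm p.2 j hj.2 hjs)
    · rintro ⟨a, c⟩ ⟨b, d⟩ h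
      simp only [map_mul] at h
      have h1 : ∀ c, q (f c) * E q s (x i) * (q (f c))⁻¹ = E q s (x i) := fun c => by
        rw [(hfcomm c i hi his).eq]; group
      have h2 : a = b := hψinj a b (by
        calc q (ψ a) * E q s (x i) * (q (ψ a))⁻¹
            = q (ψ a) * (q (f c) * E q s (x i) * (q (f c))⁻¹) * (q (ψ a))⁻¹ := by rw [h1]
          _ = (q (ψ a) * q (f c)) * E q s (x i) * (q (ψ a) * q (f c))⁻¹ := by group
          _ = (q (ψ b) * q (f d)) * E q s (x i) * (q (ψ b) * q (f d))⁻¹ := by rw [h]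
          _ = q (ψ b) * (q (f d) * E q s (x i) * (q (f d))⁻¹) * (q (ψ b))⁻¹ := by group
          _ = _ := by rw [h1])
      subst h2
      have h3 : c = d := hfinj c d (mul_left_cancel h)
      rw [h3]

/-- **the gap theorem**: if the partial conjugations `C i ⁅x j, x k⁆` are not killed by `q`, then
the image of `IA_n` has at least `2 ^ (n * (n-1).choose 2)` elements -/
theorem gap (hn : 4 ≤ n) (hC : ∀ i j k : Fin n, i ≠ j → i ≠ k → j ≠ k → q (C i ⁅x j, x k⁆) ≠ 1)
    [Finite ((torelli n).map q)] : 2 ^ (n * (n - 1).choose 2) ≤ Nat.card ((torelli n).map q) := by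
  let s : Fin n := ⟨0, by omega⟩
  have hnc : ∀ j k : Fin n, j ≠ s → k ≠ s → j ≠ k → ¬ Commute (E q s (x j)) (E q s (x k)) := by
    intro j k hj hk hjk h
    refine hC s j k hj.symm hk.symm hjk ?_
    have h1 : q (R s ⁅x j, x k⁆) = 1 := by
      show E q s ⁅x j, x k⁆ = 1
      rw [map_commutatorElement]
      exact commutatorElement_eq_one_iff_commute.mpr h
    have h2 : q (L s ⁅x j, x k⁆) = 1 := by
      rw [← sg_conj_R_same, map_mul, map_mul, map_inv, h1, mul_one, mul_inv_cancel]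
    rw [C_eq, map_mul, h1, h2, one_mul]
  obtain ⟨ι, _, f, hfc, hft, _, hfinj⟩ := chain q s hn hnc (Finset.univ.erase s) (by simp)
  have h1 : (Finset.univ.erase s).card + 1 = n := by
    rw [Finset.card_erase_of_mem (Finset.mem_univ s), Finset.card_univ, Fintype.card_fin]; omega
  rw [h1] at hfc
  rw [← hfc, ← Nat.card_eq_fintype_card]
  exact Nat.card_le_card_of_injective
    (fun a => (⟨q (f a), Subgroup.mem_map_of_mem _ (hft a)⟩ : (torelli n).map q))
    (fun a b h => hfinj a b (congrArg Subtype.val h))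

end Pool.Agent.CSP5
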