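import Pool.Agent.CSP5.Gap
import Pool.Agent.CSP4.Lev1N

/-!
# The lower bound for non abelian images of the Torelli group, all ranks `n ≥ 3`
-/

set_option autoImplicit false

namespace Pool.Agent.CSP5

open Pool.Agent.CSP3 Pool.Agent.CSP4
open scoped commutatorElement

/-- a finite group with two non commuting elements `a`, `b` such that `a`, `b`, `a * b` are not
involutions has at least eight elements -/
theorem eight {G : Type*} [Group G] [Finite G] {a b : G} (hab : ¬ Commute a b)
    (ha : a ^ 2 ≠ 1) (hb : b ^ 2 ≠ 1) (hc : (a * b) ^ 2 ≠ 1) : 8 ≤ Nat.card G := by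
  have a1 : a ≠ 1 := fun h => hab (h ▸ Commute.one_left b)
  have b1 : b ≠ 1 := fun h => hab (h ▸ Commute.one_right a)
  have e1 : a * b ≠ 1 := fun h => hab (by
    rw [eq_inv_of_mul_eq_one_left h]; exact Commute.inv_left (Commute.refl b))
  have e2 : ∀ c : G, c ^ 2 ≠ 1 → c ≠ c⁻¹ := fun c h h' => h (by
    rw [pow_two]; nth_rewrite 2 [h']; exact mul_inv_cancel c)
  have e3 : a ≠ b := fun h => hab (h ▸ Commute.refl a)
  have e4 : a ≠ b⁻¹ := fun h => hab (by rw [h]; exact Commute.inv_left (Commute.refl b))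
  have e5 : a ≠ a * b := fun h => b1 (mul_eq_left.mp h.symm)
  have e6 : b ≠ a * b := fun h => a1 (mul_eq_right.mp h.symm)
  have e7 : a ≠ (a * b)⁻¹ := fun h => hab (by
    have : b = a⁻¹ * a⁻¹ := by
      rw [mul_inv_rev] at h
      have h2 : a * a = b⁻¹ := by nth_rewrite 1 [h]; group
      rw [← inv_inv b, ← h2, mul_inv_rev]
    rw [this]; exact (Commute.refl a).inv_right.mul_right (Commute.refl a).inv_right)
  have e8 : b ≠ (a * b)⁻¹ := fun h => hab (by
    have : a = b⁻¹ * b⁻¹ := by
      rw [mul_inv_rev] at h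
      have h2 : b * b = a⁻¹ := by nth_rewrite 2 [h]; group
      rw [← inv_inv a, ← h2, mul_inv_rev]
    rw [this]; exact (Commute.refl b).inv_left.mul_left (Commute.refl b).inv_left)
  classical
  have := Fintype.ofFinite G
  have h7 : 7 ≤ Nat.card G := by
    have h : ({1, a, a⁻¹, b, b⁻¹, a * b, (a * b)⁻¹} : Finset G).card = 7 := by
      have f : ∀ u v : G, u ≠ v → u⁻¹ ≠ v⁻¹ := fun u v h h' => h (inv_injective h')
      have g : ∀ u v : G, u ≠ v⁻¹ → u⁻¹ ≠ v := fun u v h h' => h (by rw [← h', inv_inv])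
      rw [Finset.card_insert_of_notMem, Finset.card_insert_of_notMem,
        Finset.card_insert_of_notMem, Finset.card_insert_of_notMem,
        Finset.card_insert_of_notMem, Finset.card_insert_of_notMem, Finset.card_singleton]
      · rw [Finset.mem_singleton]; exact e2 _ hc
      · simp only [Finset.mem_insert, Finset.mem_singleton, not_or]
        exact ⟨g _ _ e8, f _ _ e6⟩
      · simp only [Finset.mem_insert, Finset.mem_singleton, not_or]
        exact ⟨e2 _ hb, e6, e8⟩
      · simp only [Finset.mem_insert, Finset.mem_singleton, not_or]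
        exact ⟨g _ _ e4, f _ _ e3, g _ _ e7, f _ _ e5⟩
      · simp only [Finset.mem_insert, Finset.mem_singleton, not_or]
        exact ⟨e2 _ ha, e3, e4, e5, e7⟩
      · simp only [Finset.mem_insert, Finset.mem_singleton, not_or]
        refine ⟨a1.symm, ?_, b1.symm, ?_, e1.symm, ?_⟩
        · exact fun h => a1 (inv_eq_one.mp h.symm)
        · exact fun h => b1 (inv_eq_one.mp h.symm)
        · exact fun h => e1 (inv_eq_one.mp h.symm)
    rw [← h, Nat.card_eq_fintype_card]
    exact Finset.card_le_univ _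
  refine Nat.lt_of_le_of_ne h7 fun h => ?_
  have : Fact (Nat.Prime 7) := ⟨by norm_num⟩
  have hcyc : IsCyclic G := isCyclic_of_prime_card h.symm
  obtain ⟨g, hg⟩ := hcyc.exists_generator
  obtain ⟨i, rfl⟩ := hg a
  obtain ⟨j, rfl⟩ := hg b
  exact hab (((Commute.refl g).zpow_left i).zpow_right j)

variable {n : ℕ} {Q : Type*} [Group Q] (q : A n →* Q)

/-- **the gap theorem, all `n ≥ 3`** -/
theorem gap' (hn : 3 ≤ n) (hC : ∀ i j k : Fin n, i ≠ j → i ≠ k → j ≠ k → q (C i ⁅x j, x k⁆) ≠ 1)
    [Finite ((torelli n).map q)] : 2 ^ (n * (n - 1).choose 2) ≤ Nat.card ((torelli n).map q) := by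
  rcases Nat.eq_or_lt_of_le hn with rfl | hn
  · have h01 : (0 : Fin 3) ≠ 1 := by decide
    have h02 : (0 : Fin 3) ≠ 2 := by decide
    have h12 : (1 : Fin 3) ≠ 2 := by decide
    have hsq : ∀ j : Fin 3, 0 ≠ j → q (C 0 (x j)) ^ 2 ≠ 1 := by
      intro j hj h
      obtain ⟨k, hk1, hk2⟩ := CSP4.third (le_refl 3) 0 j
      refine hC 0 j k hj hk1.symm hk2.symm ?_
      have := C_comm_mem_of_sq q.ker hj hk1.symm hk2.symm (by
        rw [MonoidHom.mem_ker, map_pow]; exact h)
      exact this
    have hab : ¬ Commute (q (C 0 (x 1))) (q (C 0 (x 2))) := fun h => hC 0 1 2 h01 h02 h12 (by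
      rw [map_commutatorElement, map_commutatorElement]
      exact commutatorElement_eq_one_iff_commute.mpr h)
    have hc : (q (C 0 (x 1)) * q (C 0 (x 2))) ^ 2 ≠ 1 := by
      intro h
      apply hsq 1 h01
      have h1 : R 1 (x 2) * C 0 (x 1) * (R 1 (x 2))⁻¹ = C (0 : Fin 3) (x 1 * x 2) := by
        rw [R_conj_C h01 (x_mem_O h02.symm), R_apply_self, kill_ne h12.symm]
      have h2 : q (C 0 (x 1 * x 2)) ^ 2 = 1 := by rw [map_mul, map_mul]; exact h
      rw [← h1, map_mul, map_mul, map_inv, conj_pow] at h2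
      exact conj_eq_one_iff.mp h2
    let T := (torelli 3).map q
    have key := eight (G := T) (a := ⟨q (C 0 (x 1)), Subgroup.mem_map_of_mem _ (C_mem_torelli _ _)⟩)
      (b := ⟨q (C 0 (x 2)), Subgroup.mem_map_of_mem _ (C_mem_torelli _ _)⟩)
      (fun h => hab (congrArg Subtype.val h.eq))
      (fun h => hsq 1 h01 (congrArg Subtype.val h))
      (fun h => hsq 2 h02 (congrArg Subtype.val h))
      (fun h => hc (congrArg Subtype.val h))
    exact key
  · exact gap q hn hC

end Pool.Agent.CSP5
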